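import Pool.Agent.MP_c1891a_nt.H43.MainC

namespace Pool.Agent.MP_c1891a_nt.Retired.AlmostAllOrders2

open Pool.Agent.MP_c1891a_nt in
/-- Ih's bound in two variables at all torsion points whose order avoids a thin set. -/
theorem result (P : AddMonoidAlgebra ℂ (ℤ × ℤ)) (ha : ∀ μ, IsAlgebraic ℚ (P.coeff μ))
    (f : ℂ → ℂ → ℂ) (hf : ∀ x y, f x y = ∑ μ ∈ P.coeff.support, P.coeff μ * x ^ μ.1 * y ^ μ.2)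
    (hP : ∀ B : ℕ, ∃ x y : ℂ, x ≠ 0 ∧ y ≠ 0 ∧ f x y = 0 ∧
      ¬ ∃ m n : ℤ, (m ≠ 0 ∨ n ≠ 0) ∧ |m| ≤ B ∧ |n| ≤ B ∧ x ^ m * y ^ n = 1) :
    ∃ (B : ℕ) (C : ℝ) (E : Set ℕ),
      (∀ X : ℕ, ((E ∩ Set.Icc 1 X).ncard : ℝ) * Real.log X ≤ C * X) ∧
      ∀ x y : ℂ, 0 < orderOf ((x, y) : ℂ × ℂ) → orderOf ((x, y) : ℂ × ℂ) ∉ E →
        f x y ≠ 0 ∧ IsIntegral ℤ (f x y) ∧ IsIntegral ℤ (f x y)⁻¹ →
        ∃ m n : ℤ, (m ≠ 0 ∨ n ≠ 0) ∧ |m| ≤ B ∧ |n| ≤ B ∧ x ^ m * y ^ n = 1 := by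
  obtain rfl : f = H43.evC P := funext fun x => funext fun y => hf x y
  exact (H43.dichC ha hP).ord

end Pool.Agent.MP_c1891a_nt.Retired.AlmostAllOrders2
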