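import Pool.Agent.MP_c1891a_nt.H91.Final
import Pool.Agent.MP_c1891a_nt.H21.BPa
import Pool.Agent.MP_c1891a_nt.H41.BPb
import Pool.Agent.MP_c1891a_nt.H19.Dob
import Pool.Agent.MP_c1891a_nt.H88.Elim
import Pool.Agent.MP_c1891a_nt.H62.Deg
import Pool.Agent.MP_c1891a_nt.H30.Two
import Pool.Agent.MP_c1891a_nt.H67.Mah

namespace Pool.Agent.Results.MP_c1891a_nt.CircularPrime

open Pool.Agent.MP_c1891a_nt.H91 in
/-- Ih's bound for `k + c (x + 1/x + y + 1/y)` in the toral range, at torsion points of prime order,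
for unit values having a bounded power in the group of circular numbers. -/
theorem result (k c : ℤ) (hk : k ≠ 0) (hkc : |k| < 4 * |c|) (E₀ : ℕ) :
    ∃ B : ℕ, ∀ p : ℕ, p.Prime → ∀ ζ x y u : AlgebraicClosure ℚ, IsPrimitiveRoot ζ p →
      x ^ p = 1 → y ^ p = 1 → u = k + c * (x + x⁻¹ + y + y⁻¹) →
      u ≠ 0 ∧ IsIntegral ℤ u ∧ IsIntegral ℤ u⁻¹ →
      (∃ e : ℕ, 1 ≤ e ∧ e ≤ E₀ ∧
        ∃ n : ℕ → ℤ, u ^ e = ∏ i ∈ Finset.Ico 1 p, (1 - ζ ^ i) ^ n i) →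
      ∃ a b : ℤ, (a ≠ 0 ∨ b ≠ 0) ∧ |a| ≤ B ∧ |b| ≤ B ∧ x ^ a * y ^ b = 1 :=
  final (bp bpa) (two (deg dob elim)) (dfc mah) k c hk hkc E₀

end Pool.Agent.Results.MP_c1891a_nt.CircularPrime
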