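import Pool.Agent.MP_c1891a_nt.H79.All
import Pool.Agent.MP_c1891a_nt.H79.MainII

namespace Pool.Agent.Results.MP_c1891a_nt.CoprimeOrders

open Pool.Agent.MP_c1891a_nt.H79 in
/-- Ih's bound for `1 + c S` with `c` large, at torsion points whose coordinates have orders
dividing `a P` and `a Q` for coprime prime powers `P`, `Q`. -/
theorem result (S : AddMonoidAlgebra ℤ (ℤ × ℤ)) (hS : ∃ μ, μ ≠ 0 ∧ S.coeff μ ≠ 0)
    (hCT : ∃ n, 0 < n ∧ (S ^ n).coeff 0 ≠ 0) (a : ℕ) (ha : 0 < a) :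
    ∃ c₀ : ℕ, ∀ c : ℤ, (c₀ : ℤ) ≤ |c| → ∃ B : ℕ, ∀ P Q : ℕ, IsPrimePow P → IsPrimePow Q →
      Nat.Coprime P Q → Nat.Coprime a (P * Q) →
      ∀ x y u : AlgebraicClosure ℚ, x ^ (a * P) = 1 → y ^ (a * Q) = 1 →
        u = 1 + c * ∑ μ ∈ S.coeff.support,
          (S.coeff μ : AlgebraicClosure ℚ) * x ^ μ.1 * y ^ μ.2 →
        u ≠ 0 ∧ IsIntegral ℤ u ∧ IsIntegral ℤ u⁻¹ →
        ∃ m n : ℤ, (m ≠ 0 ∨ n ≠ 0) ∧ |m| ≤ B ∧ |n| ≤ B ∧ x ^ m * y ^ n = 1 := by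
  obtain ⟨c₀, h⟩ := mainII allA allB allR S hS hCT a ha
  refine ⟨c₀, fun c hc => ?_⟩
  obtain ⟨B, hB⟩ := h c hc
  refine ⟨B, fun P Q hP hQ hPQ hco x y u hx hy hu hU => ?_⟩
  obtain ⟨φ, hφ⟩ := transfer S c x y u hu hU
  obtain ⟨m, n, h1, h2, h3, h4⟩ := hB P Q hP hQ hPQ hco (φ x) (φ y)
    (by rw [← map_pow, hx, map_one]) (by rw [← map_pow, hy, map_one]) hφ
  refine ⟨m, n, h1, h2, h3, φ.injective ?_⟩
  rw [map_mul, map_zpow₀, map_zpow₀, h4, map_one]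

end Pool.Agent.Results.MP_c1891a_nt.CoprimeOrders
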