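import Pool.Agent.MP_c1891a_nt.H43.MainC

namespace Pool.Agent.MP_c1891a_nt.Retired.FewOrbits2

open Pool.Agent.MP_c1891a_nt in
/-- Ih's bound in two variables, up to boundedly many Galois orbits at each level. -/
theorem result (P : AddMonoidAlgebra ℂ (ℤ × ℤ)) (ha : ∀ μ, IsAlgebraic ℚ (P.coeff μ))
    (f : ℂ → ℂ → ℂ) (hf : ∀ x y, f x y = ∑ μ ∈ P.coeff.support, P.coeff μ * x ^ μ.1 * y ^ μ.2)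
    (hP : ∀ B : ℕ, ∃ x y : ℂ, x ≠ 0 ∧ y ≠ 0 ∧ f x y = 0 ∧
      ¬ ∃ m n : ℤ, (m ≠ 0 ∨ n ≠ 0) ∧ |m| ≤ B ∧ |n| ≤ B ∧ x ^ m * y ^ n = 1) :
    ∃ C B : ℕ, ∀ M : ℕ, 0 < M → ∃ S : Finset (ℂ × ℂ), S.card ≤ C ∧
      ∀ x y : ℂ, x ^ M = 1 → y ^ M = 1 → M ^ 49 ≤ orderOf ((x, y) : ℂ × ℂ) ^ 50 →
        f x y ≠ 0 ∧ IsIntegral ℤ (f x y) ∧ IsIntegral ℤ (f x y)⁻¹ →
        (∃ m n : ℤ, (m ≠ 0 ∨ n ≠ 0) ∧ |m| ≤ B ∧ |n| ≤ B ∧ x ^ m * y ^ n = 1) ∨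
        ∃ j : ℕ, Nat.Coprime j (orderOf ((x, y) : ℂ × ℂ)) ∧ (x ^ j, y ^ j) ∈ S := by
  obtain rfl : f = H43.evC P := funext fun x => funext fun y => hf x y
  exact (H43.dichC ha hP).orb

end Pool.Agent.MP_c1891a_nt.Retired.FewOrbits2
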