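import Pool.Agent.MP_c1891a_nt.H43.MainC
import Pool.Agent.MP_c1891a_nt.H16.Prim

namespace Pool.Agent.MP_c1891a_nt.Retired.IsogenyImage2

open Pool.Agent.MP_c1891a_nt in
/-- Ih's bound for the images of a plane curve under isogenies divisible by a large integer. -/
theorem result (f : AddMonoidAlgebra ℂ (ℤ × ℤ) → ℂ → ℂ → ℂ)
    (hf : ∀ P x y, f P x y = ∑ μ ∈ P.coeff.support, P.coeff μ * x ^ μ.1 * y ^ μ.2)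
    (P : AddMonoidAlgebra ℂ (ℤ × ℤ)) (ha : ∀ μ, IsAlgebraic ℚ (P.coeff μ))
    (hP : ∀ B : ℕ, ∃ x y : ℂ, x ≠ 0 ∧ y ≠ 0 ∧ f P x y = 0 ∧
      ¬ ∃ m n : ℤ, (m ≠ 0 ∨ n ≠ 0) ∧ |m| ≤ B ∧ |n| ≤ B ∧ x ^ m * y ^ n = 1) :
    ∃ k₀ : ℕ, ∀ k : ℕ, k₀ ≤ k → ∀ a b c d : ℤ, a * d ≠ b * c →
      ∀ R S : AddMonoidAlgebra ℂ (ℤ × ℤ), (∀ μ, IsAlgebraic ℚ (R.coeff μ)) →
      (∀ x y : ℂ, x ≠ 0 → y ≠ 0 →
        f R (x ^ (k * a) * y ^ (k * b)) (x ^ (k * c) * y ^ (k * d)) = f P x y * f S x y) →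
      ∃ B : ℕ, ∀ x y : ℂ, (∃ N : ℕ, 0 < N ∧ x ^ N = 1) → (∃ N : ℕ, 0 < N ∧ y ^ N = 1) →
        f R x y ≠ 0 ∧ IsIntegral ℤ (f R x y) ∧ IsIntegral ℤ (f R x y)⁻¹ →
        ∃ m n : ℤ, (m ≠ 0 ∨ n ≠ 0) ∧ |m| ≤ B ∧ |n| ≤ B ∧ x ^ m * y ^ n = 1 := by
  obtain rfl : f = H43.evC := funext fun P => funext fun x => funext fun y => hf P x y
  exact H43.pushC H43.sPrim ha hP

end Pool.Agent.MP_c1891a_nt.Retired.IsogenyImage2
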