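import Pool.Agent.MP_c1891a_nt.H43.Main

namespace Pool.Agent.Results.MP_c1891a_nt.NonIsogenous

open Pool.Agent.MP_c1891a_nt in
/-- Ih's bound for a product of two polynomials whose curves are not isogenous. -/
theorem result (f : AddMonoidAlgebra ℤ (ℤ × ℤ) → ℂ → ℂ → ℂ)
    (hf : ∀ P x y, f P x y = ∑ μ ∈ P.coeff.support, (P.coeff μ : ℂ) * x ^ μ.1 * y ^ μ.2)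
    (P Q : AddMonoidAlgebra ℤ (ℤ × ℤ))
    (hP : ∀ B : ℕ, ∃ x y : ℂ, x ≠ 0 ∧ y ≠ 0 ∧ f P x y = 0 ∧
      ¬ ∃ m n : ℤ, (m ≠ 0 ∨ n ≠ 0) ∧ |m| ≤ B ∧ |n| ≤ B ∧ x ^ m * y ^ n = 1)
    (hQ : ∀ B : ℕ, ∃ x y : ℂ, x ≠ 0 ∧ y ≠ 0 ∧ f Q x y = 0 ∧
      ¬ ∃ m n : ℤ, (m ≠ 0 ∨ n ≠ 0) ∧ |m| ≤ B ∧ |n| ≤ B ∧ x ^ m * y ^ n = 1)
    (hPQ : ∀ (k : ℕ) (a b c d : ℤ), 0 < k → a * d ≠ b * c →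
      {z : (ℂ × ℂ) × ℂ × ℂ | z.1.1 ≠ 0 ∧ z.1.2 ≠ 0 ∧ z.2.1 ≠ 0 ∧ z.2.2 ≠ 0 ∧
        f P z.1.1 z.1.2 = 0 ∧ f Q z.2.1 z.2.2 = 0 ∧
        z.2.1 ^ k = z.1.1 ^ a * z.1.2 ^ b ∧ z.2.2 ^ k = z.1.1 ^ c * z.1.2 ^ d}.Finite) :
    ∃ B : ℕ, ∀ x y u : ℂ, (∃ N : ℕ, 0 < N ∧ x ^ N = 1) → (∃ N : ℕ, 0 < N ∧ y ^ N = 1) →
      u = f P x y * f Q x y → u ≠ 0 ∧ IsIntegral ℤ u ∧ IsIntegral ℤ u⁻¹ →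
      ∃ m n : ℤ, (m ≠ 0 ∨ n ≠ 0) ∧ |m| ≤ B ∧ |n| ≤ B ∧ x ^ m * y ^ n = 1 := by
  obtain rfl : f = fun P => H43.ev P := funext fun P => funext fun x => funext fun y => hf P x y
  obtain ⟨B, h⟩ := H43.mainProd hP hQ hPQ
  exact ⟨B, fun x y u tx ty e hu => h x y tx ty (e ▸ hu)⟩

end Pool.Agent.Results.MP_c1891a_nt.NonIsogenous
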